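import Pool.Agent.Helper95.KZ.Goals

/-!
# Packet LIN of project KZ
-/

set_option autoImplicit false

namespace Pool.Agent.Helper55.KZ

open Pool.Agent.Helper95.KZ
open Pool.Agent.Helper52.Wq2

universe u

theorem path_step {Γ : Type u} [Group Γ] {S : Set Γ} {x s : Γ} (hs : s ∈ S)
    (h : ∃ n : ℕ, ∃ p : ℕ → Γ, p 0 = 1 ∧ p n = x ∧ ∀ i, i < n → (p i)⁻¹ * p (i + 1) ∈ S) :
    ∃ n : ℕ, ∃ p : ℕ → Γ, p 0 = 1 ∧ p n = x * s ∧ ∀ i, i < n → (p i)⁻¹ * p (i + 1) ∈ S := by
  obtain ⟨n, p, h0, hn, hp⟩ := h
  refine ⟨n + 1, fun i => if i ≤ n then p i else x * s, ?_, ?_, ?_⟩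
  · simp only [Nat.zero_le, if_true]
    exact h0
  · have h1 : ¬ (n + 1 ≤ n) := by omega
    simp only [h1, if_false]
  · intro i hi
    rcases Nat.lt_or_ge i n with h1 | h1
    · have h2 : i ≤ n := by omega
      have h3 : i + 1 ≤ n := by omega
      simp only [h2, h3, if_true]
      exact hp i h1
    · have h2 : i = n := by omega
      subst h2
      have h3 : ¬ (i + 1 ≤ i) := by omega
      simp only [le_refl, if_true, h3, if_false]
      rw [hn, inv_mul_cancel_left]
      exact hs

theorem exists_path {Γ : Type u} [Group Γ] {S : Set Γ} (hS : IsGen S) (x : Γ) :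
    ∃ n : ℕ, ∃ p : ℕ → Γ, p 0 = 1 ∧ p n = x ∧ ∀ i, i < n → (p i)⁻¹ * p (i + 1) ∈ S := by
  have hx : x ∈ Subgroup.closure S := by
    rw [hS.1]
    trivial
  refine Subgroup.closure_induction_right (p := fun x _ => ∃ n : ℕ, ∃ p : ℕ → Γ, p 0 = 1 ∧
    p n = x ∧ ∀ i, i < n → (p i)⁻¹ * p (i + 1) ∈ S) ?_ ?_ ?_ hx
  · exact ⟨0, fun _ => 1, rfl, rfl, fun i hi => absurd hi (Nat.not_lt_zero i)⟩
  · intro y _ s hs ih
    exact path_step hs ih
  · intro y _ s hs ih
    exact path_step (hS.2.1 s hs) ih

theorem lin : LinStmt.{u} := by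
  classical
  intro Γ _ S K a hS hK hak haK
  let P : ℕ → Prop := fun n => ∃ p : ℕ → Γ, (∀ i, i < n → (p i)⁻¹ * p (i + 1) ∈ S) ∧
    ∃ κ ∈ K, ∃ j : ℤ, j ≠ 0 ∧ p n = κ * a ^ j * p 0
  have hex : ∃ n, P n := by
    obtain ⟨n, p, h0, hn, hp⟩ := exists_path hS a
    exact ⟨n, p, hp, 1, K.one_mem, 1, one_ne_zero, by rw [h0, hn]; simp⟩
  obtain ⟨n, hn, hmin⟩ : ∃ n, P n ∧ ∀ m < n, ¬ P m :=
    ⟨Nat.find hex, Nat.find_spec hex, fun m hm => Nat.find_min hex hm⟩
  obtain ⟨p, hp, κ, hκ, j, hj, hpn⟩ := hn
  have hakz : ∀ k ∈ K, ∀ l : ℤ, a ^ l * k = k * a ^ l := fun k hk l =>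
    (Commute.zpow_left (show Commute a k from hak k hk) l)
  have hn0 : 0 < n := by
    rcases Nat.eq_zero_or_pos n with h | h
    · exfalso
      rw [h] at hpn
      have h1 : κ * a ^ j = 1 := by
        have h2 : 1 * p 0 = κ * a ^ j * p 0 := by rw [one_mul]; exact hpn
        exact (mul_right_cancel h2).symm
      have h2 : a ^ j = κ⁻¹ := eq_inv_of_mul_eq_one_right h1
      exact hj (haK j (by rw [h2]; exact K.inv_mem hκ))
    · exact h
  have key : ∀ i i' : ℕ, i < i' → i' < n → ∀ k ∈ K, ∀ l : ℤ, p i ≠ k * a ^ l * p i' := by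
    intro i i' hii hi' k hk l he
    by_cases hl : l = 0
    · rw [hl, zpow_zero, mul_one] at he
      refine hmin (n - (i' - i)) (by omega) ⟨fun t => if t ≤ i then p t else k * p (t + (i' - i)),
        ?_, k * κ, K.mul_mem hk hκ, j, hj, ?_⟩
      · intro t ht
        rcases Nat.lt_or_ge t i with h1 | h1
        · have h2 : t ≤ i := by omega
          have h3 : t + 1 ≤ i := by omega
          simp only [h2, h3, if_true]
          exact hp t (by omega)
        · rcases Nat.eq_or_lt_of_le h1 with h2 | h2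
          · subst h2
            have h3 : ¬ (i + 1 ≤ i) := by omega
            have h4 : i + 1 + (i' - i) = i' + 1 := by omega
            simp only [le_refl, if_true, h3, if_false, h4]
            rw [he, mul_inv_rev, mul_assoc, inv_mul_cancel_left]
            exact hp i' hi'
          · have h3 : ¬ (t ≤ i) := by omega
            have h4 : ¬ (t + 1 ≤ i) := by omega
            have h5 : t + 1 + (i' - i) = t + (i' - i) + 1 := by omega
            simp only [h3, h4, if_false, h5]
            rw [mul_inv_rev, mul_assoc, inv_mul_cancel_left]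
            exact hp _ (by omega)
      · have h3 : ¬ (n - (i' - i) ≤ i) := by omega
        have h4 : n - (i' - i) + (i' - i) = n := by omega
        simp only [h3, if_false, h4, Nat.zero_le, if_true]
        rw [hpn]
        simp only [mul_assoc]
    · refine hmin (i' - i) (by omega) ⟨fun t => p (i + t), ?_, k⁻¹, K.inv_mem hk, -l,
        neg_ne_zero.2 hl, ?_⟩
      · intro t ht
        exact hp (i + t) (by omega)
      · have h1 : i + (i' - i) = i' := by omega
        simp only [h1, add_zero]
        rw [he, ← hakz _ (K.inv_mem hk) (-l), mul_assoc, mul_assoc k, inv_mul_cancel_left,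
          ← mul_assoc, ← zpow_add, neg_add_cancel, zpow_zero, one_mul]
  have key3 : ∀ i i' : ℕ, i < n → i' < n → ∀ k ∈ K, ∀ l : ℤ, p i = k * a ^ l * p i' →
      i = i' ∧ k * a ^ l = 1 := by
    intro i i' hi hi' k hk l he
    rcases Nat.lt_trichotomy i i' with h | h | h
    · exact absurd he (key i i' h hi' k hk l)
    · subst h
      refine ⟨rfl, ?_⟩
      have h2 : 1 * p i = k * a ^ l * p i := by rw [one_mul]; exact he
      exact (mul_right_cancel h2).symm
    · exfalso
      refine key i' i h hi k⁻¹ (K.inv_mem hk) (-l) ?_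
      rw [he, ← hakz _ (K.inv_mem hk) (-l), mul_assoc, mul_assoc k, inv_mul_cancel_left,
        ← mul_assoc, ← zpow_add, neg_add_cancel, zpow_zero, one_mul]
  have hc : ∀ i : ℤ, (κ * a ^ j) ^ i = κ ^ i * a ^ (j * i) := by
    intro i
    rw [(show Commute κ (a ^ j) from (hakz κ hκ j).symm).mul_zpow, zpow_mul]
  have hnz : (n : ℤ) ≠ 0 := by exact_mod_cast hn0.ne'
  have hnpos : (0 : ℤ) < n := by exact_mod_cast hn0
  refine ⟨κ, hκ, j, hj, p '' {i | i < n}, (Set.finite_lt_nat n).image p, ⟨p 0, 0, hn0, rfl⟩, ?_, ?_⟩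
  · have hline := conn_line (G := cay S)
      (fun t : ℤ => (κ * a ^ j) ^ (t / n) * p (t % n).toNat) (fun _ => True) 0 trivial
      (fun _ _ _ => trivial) (fun _ _ _ => trivial) (by
        intro t _ _
        show (cay S).Adj ((κ * a ^ j) ^ (t / n) * p (t % n).toNat)
          ((κ * a ^ j) ^ ((t + 1) / n) * p ((t + 1) % n).toNat)
        rw [cay_adj hS]
        have hr0 := Int.emod_nonneg t hnz
        have hr1 := Int.emod_lt_of_pos t hnpos
        have hd := Int.mul_ediv_add_emod t n
        rcases lt_or_ge (t % n + 1) n with h | h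
        · have h1 : (t + 1) / n = t / n := by
            rw [Int.ediv_eq_iff_of_pos hnpos]
            constructor
            · nlinarith
            · nlinarith
          have h2 : (t + 1) % n = t % n + 1 := by
            have := Int.mul_ediv_add_emod (t + 1) n
            rw [h1] at this
            linarith
          rw [h1, h2]
          have h3 : (t % n + 1).toNat = (t % n).toNat + 1 := by omega
          rw [h3, mul_inv_rev, mul_assoc, inv_mul_cancel_left]
          exact hp _ (by omega)
        · have h0 : t % n = n - 1 := by omega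
          have h1 : (t + 1) / n = t / n + 1 := by
            rw [Int.ediv_eq_iff_of_pos hnpos]
            constructor
            · nlinarith
            · nlinarith
          have h2 : (t + 1) % n = 0 := by
            have := Int.mul_ediv_add_emod (t + 1) n
            rw [h1] at this
            nlinarith
          rw [h1, h2, zpow_add_one, mul_assoc, Int.toNat_zero, ← hpn, mul_inv_rev, mul_assoc,
            inv_mul_cancel_left, h0]
          have h3 : ((n : ℤ) - 1).toNat = n - 1 := by omega
          rw [h3]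
          have h4 := hp (n - 1) (by omega)
          rwa [Nat.sub_add_cancel hn0] at h4)
    have hset : {v | ∃ x : ℤ, True ∧ (κ * a ^ j) ^ (x / n) * p (x % n).toNat = v} =
        {x | ∃ i : ℤ, ∃ f ∈ p '' {i | i < n}, x = (κ * a ^ j) ^ i * f} := by
      ext v
      constructor
      · rintro ⟨t, _, rfl⟩
        have hr0 := Int.emod_nonneg t hnz
        have hr1 := Int.emod_lt_of_pos t hnpos
        exact ⟨t / n, _, ⟨(t % n).toNat, by show (t % n).toNat < n; omega, rfl⟩, rfl⟩
      · rintro ⟨i, _, ⟨q, hq, rfl⟩, rfl⟩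
        have hq' : q < n := hq
        refine ⟨n * i + q, trivial, ?_⟩
        have h1 : ((n : ℤ) * i + q) / n = i := by
          rw [Int.ediv_eq_iff_of_pos hnpos]
          constructor
          · nlinarith
          · have : (q : ℤ) < n := by exact_mod_cast hq'
            nlinarith
        have h2 : ((n : ℤ) * i + q) % n = q := by
          have := Int.mul_ediv_add_emod ((n : ℤ) * i + q) n
          rw [h1] at this
          linarith
        rw [h1, h2, Int.toNat_natCast]
    rw [hset] at hline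
    exact hline
  · rintro k hk hk1 _ ⟨i, _, ⟨q, hq, rfl⟩, rfl⟩ ⟨l, _, ⟨q', hq', rfl⟩, he⟩
    rw [hc, hc] at he
    have hkk : k * κ ^ i ∈ K := K.mul_mem hk (K.zpow_mem hκ i)
    have h1 : p q' = (κ ^ (-l) * (k * κ ^ i)) * a ^ (-(j * l) + j * i) * p q := by
      have h2 : p q' = a ^ (-(j * l)) * (κ ^ (-l) * (κ ^ l * a ^ (j * l) * p q')) := by
        rw [← mul_assoc (κ ^ (-l)), ← mul_assoc (κ ^ (-l)), ← zpow_add, neg_add_cancel, zpow_zero,
          one_mul, ← mul_assoc, ← zpow_add, neg_add_cancel, zpow_zero, one_mul]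
      rw [h2, ← he]
      have h3 : κ ^ (-l) * (k * κ ^ i) ∈ K := K.mul_mem (K.zpow_mem hκ _) hkk
      rw [zpow_add]
      have h4 := hakz _ h3 (-(j * l))
      calc a ^ (-(j * l)) * (κ ^ (-l) * (k * (κ ^ i * a ^ (j * i) * p q)))
          = (a ^ (-(j * l)) * (κ ^ (-l) * (k * κ ^ i))) * (a ^ (j * i) * p q) := by
            simp only [mul_assoc]
        _ = κ ^ (-l) * (k * κ ^ i) * a ^ (-(j * l)) * (a ^ (j * i) * p q) := by rw [h4]
        _ = _ := by simp only [mul_assoc]
    have h3 : κ ^ (-l) * (k * κ ^ i) ∈ K := K.mul_mem (K.zpow_mem hκ _) hkk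
    obtain ⟨_, h5⟩ := key3 q' q hq' hq _ h3 _ h1
    have h6 : a ^ (-(j * l) + j * i) = (κ ^ (-l) * (k * κ ^ i))⁻¹ := eq_inv_of_mul_eq_one_right h5
    have h7 : -(j * l) + j * i = 0 := haK _ (by rw [h6]; exact K.inv_mem h3)
    have h8 : i = l := by
      have h9 : j * (i - l) = 0 := by linarith
      rcases mul_eq_zero.1 h9 with h10 | h10
      · exact absurd h10 hj
      · omega
    rw [h7, zpow_zero, mul_one, h8] at h5
    apply hk1
    have h9 : k * κ ^ l = κ ^ l := by
      have h10 := congrArg (fun x => κ ^ l * x) h5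
      simp only [mul_one] at h10
      rw [← mul_assoc, ← zpow_add, add_neg_cancel, zpow_zero, one_mul] at h10
      exact h10
    exact mul_eq_right.1 h9

end Pool.Agent.Helper55.KZ
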